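import Pool.Agent.WAQ.StmtsL

/-!
# Squad WAQ (MP_ff4683_nt): row RED, the reduction homomorphism
-/

namespace Pool.Agent.WAQ.H98

open Classical WeierstrassCurve.Affine

variable [Par]

section ring

variable {F : Type} [NormedField F] {ϖ : ℤ}

/-- the valuation ring -/
def OO (h : IsLoc F ϖ) : Subring F where
  carrier := {x | ‖x‖ ≤ 1}
  mul_mem' := by
    intro x y hx hy
    simp only [Set.mem_ofPred_eq] at hx hy ⊢
    rw [norm_mul]
    exact mul_le_one₀ hx (norm_nonneg _) hy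
  one_mem' := by simp
  add_mem' := by
    intro x y hx hy
    exact (h.ultra x y).trans (max_le hx hy)
  zero_mem' := by simp
  neg_mem' := by
    intro x hx
    simpa using hx

theorem coe_sub' {h : IsLoc F ϖ} (x y : OO h) : ((x - y : OO h) : F) = (x : F) - (y : F) := rfl

theorem OO_le (h : IsLoc F ϖ) (x : OO h) : ‖(x : F)‖ ≤ 1 := x.2

/-- an integer near `x` -/
noncomputable def rr (h : IsLoc F ϖ) (x : OO h) : ℤ := (h.res x (OO_le h x)).choose

theorem rr_spec (h : IsLoc F ϖ) (x : OO h) : ‖(x : F) - am F (rr h x)‖ < 1 :=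
  (h.res x (OO_le h x)).choose_spec

theorem rr_key (h : IsLoc F ϖ) (x : OO h) (a : ℤ) (ha : ‖(x : F) - am F a‖ < 1) :
    ((rr h x : ℤ) : ZMod ϖ.natAbs) = (a : ZMod ϖ.natAbs) := by
  rw [ZMod.intCast_eq_intCast_iff_dvd_sub, Int.natAbs_of_nonneg h.pos.le, ← h.lt_one, map_sub]
  have e : am F a - am F (rr h x) = ((x : F) - am F (rr h x)) + -((x : F) - am F a) := by ring
  rw [e]
  refine (h.ultra _ _).trans_lt (max_lt (rr_spec h x) ?_)
  rwa [norm_neg]

/-- the reduction of the valuation ring -/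
noncomputable def rho (h : IsLoc F ϖ) : OO h →+* ZMod ϖ.natAbs where
  toFun x := ((rr h x : ℤ) : ZMod ϖ.natAbs)
  map_one' := by
    rw [rr_key h 1 1 (by simp)]
    simp
  map_mul' x y := by
    rw [← Int.cast_mul]
    refine rr_key h _ _ ?_
    have e : ((x * y : OO h) : F) - am F (rr h x * rr h y) =
        (x : F) * ((y : F) - am F (rr h y)) + am F (rr h y) * ((x : F) - am F (rr h x)) := by
      rw [map_mul, Subring.coe_mul]
      ring
    rw [e]
    refine (h.ultra _ _).trans_lt (max_lt ?_ ?_)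
    · rw [norm_mul]
      exact lt_of_le_of_lt (mul_le_of_le_one_left (norm_nonneg _) (OO_le h x)) (rr_spec h y)
    · rw [norm_mul]
      exact lt_of_le_of_lt (mul_le_of_le_one_left (norm_nonneg _) (h.int _)) (rr_spec h x)
  map_zero' := by
    rw [rr_key h 0 0 (by simp)]
    simp
  map_add' x y := by
    rw [← Int.cast_add]
    refine rr_key h _ _ ?_
    have e : ((x + y : OO h) : F) - am F (rr h x + rr h y) =
        ((x : F) - am F (rr h x)) + ((y : F) - am F (rr h y)) := by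
      rw [map_add, Subring.coe_add]
      ring
    rw [e]
    exact (h.ultra _ _).trans_lt (max_lt (rr_spec h x) (rr_spec h y))

theorem rho_eq_zero (h : IsLoc F ϖ) (x : OO h) : rho h x = 0 ↔ ‖(x : F)‖ < 1 := by
  constructor
  · intro h0
    have h1 : ((rr h x : ℤ) : ZMod ϖ.natAbs) = ((0 : ℤ) : ZMod ϖ.natAbs) := by
      rw [Int.cast_zero]
      exact h0
    rw [ZMod.intCast_eq_intCast_iff_dvd_sub, Int.natAbs_of_nonneg h.pos.le, zero_sub, dvd_neg,
      ← h.lt_one] at h1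
    have e : (x : F) = ((x : F) - am F (rr h x)) + am F (rr h x) := by ring
    rw [e]
    exact (h.ultra _ _).trans_lt (max_lt (rr_spec h x) h1)
  · intro h0
    show ((rr h x : ℤ) : ZMod ϖ.natAbs) = 0
    rw [rr_key h x 0 (by rw [map_zero, sub_zero]; exact h0), Int.cast_zero]

end ring

section main

variable {F : Type} [NormedField F] {ϖ : ℤ} {h : IsLoc F ϖ} {k : Type} [Field k] [DecidableEq k]
  {ρ : OO h →+* k}

theorem coe_ea : ((ea (OO h) : OO h) : F) = ea F := map_ea (OO h).subtype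

theorem coe_eb : ((eb (OO h) : OO h) : F) = eb F := map_eb (OO h).subtype

theorem rho_ne (hρ : ∀ x, ρ x = 0 ↔ ‖(x : F)‖ < 1) {x : OO h} (hx : ‖(x : F)‖ = 1) : ρ x ≠ 0 := by
  intro h0
  rw [hρ, hx] at h0
  exact lt_irrefl _ h0

theorem gdk (hρ : ∀ x, ρ x = 0 ↔ ‖(x : F)‖ < 1) : Gd k where
  a0 := by
    rw [← map_ea ρ]
    exact rho_ne hρ (by rw [coe_ea]; exact h.norm_ea)
  b0 := by
    rw [← map_eb ρ]
    exact rho_ne hρ (by rw [coe_eb]; exact h.norm_eb)
  ab := by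
    rw [← map_ea ρ, ← map_eb ρ]
    intro h0
    rw [← sub_eq_zero, ← map_sub] at h0
    refine rho_ne hρ ?_ h0
    rw [coe_sub', coe_ea, coe_eb]
    exact h.norm_eab

theorem two_k (hρ : ∀ x, ρ x = 0 ↔ ‖(x : F)‖ < 1) : (2 : k) ≠ 0 := by
  rw [← map_ofNat ρ 2]
  exact rho_ne hρ (by
    have e : (((2 : OO h) : OO h) : F) = 2 := by norm_cast
    rw [e]
    exact h.norm_two)

variable {d : OO h}

/-- equation in the valuation ring -/
theorem eq_O {X Y : OO h} (hXY : (W (d : F)).Nonsingular (X : F) (Y : F)) :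
    Y ^ 2 = X * (X - d * ea (OO h)) * (X - d * eb (OO h)) := by
  have h1 := ((W_nonsing_iff _ _ _).1 hXY).1
  apply Subtype.ext
  push_cast
  rw [coe_ea, coe_eb]
  exact h1

theorem ns (hρ : ∀ x, ρ x = 0 ↔ ‖(x : F)‖ < 1) (hd : ‖(d : F)‖ = 1) {X Y : OO h}
    (hXY : (W (d : F)).Nonsingular (X : F) (Y : F)) : (W (ρ d)).Nonsingular (ρ X) (ρ Y) := by
  have := gdk hρ
  rw [W_nonsingular _ _ _ (two_k hρ) (rho_ne hρ hd), ← map_ea ρ, ← map_eb ρ]
  have := congrArg ρ (eq_O hXY)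
  simpa only [map_pow, map_mul, map_sub] using this

theorem big_some (hd : ‖(d : F)‖ = 1) {X Y : F} (hXY : (W (d : F)).Nonsingular X Y) :
    Big 1 (Point.some X Y hXY : Pt (d : F)) ↔ 1 < ‖X‖ := by
  have e : ‖cX (Point.some X Y hXY : Pt (d : F)) / (d : F)‖ = ‖X‖ := by
    show ‖X / (d : F)‖ = ‖X‖
    rw [norm_div, hd, div_one]
  unfold Big
  rw [e]
  exact ⟨fun hh => hh.resolve_left (Point.some_ne_zero hXY), Or.inr⟩

theorem Y_le (hd : ‖(d : F)‖ = 1) {X Y : F} (hXY : (W (d : F)).Nonsingular X Y) (hX : ‖X‖ ≤ 1) :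
    ‖Y‖ ≤ 1 := by
  have h1 := ((W_nonsing_iff _ _ _).1 hXY).1
  have a1 : ‖X - (d : F) * ea F‖ ≤ 1 := by
    rw [sub_eq_add_neg]
    refine (h.ultra _ _).trans (max_le hX ?_)
    rw [norm_neg, norm_mul, hd, h.norm_ea, one_mul]
  have a2 : ‖X - (d : F) * eb F‖ ≤ 1 := by
    rw [sub_eq_add_neg]
    refine (h.ultra _ _).trans (max_le hX ?_)
    rw [norm_neg, norm_mul, hd, h.norm_eb, one_mul]
  have h2 : ‖Y‖ ^ 2 ≤ 1 := by
    rw [← norm_pow, h1, norm_mul, norm_mul]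
    exact mul_le_one₀ (mul_le_one₀ hX (norm_nonneg _) a1) (norm_nonneg _) a2
  nlinarith [norm_nonneg Y]

theorem dich (hd : ‖(d : F)‖ = 1) (P : Pt (d : F)) :
    Big 1 P ∨ ∃ (X Y : OO h) (hXY : (W (d : F)).Nonsingular (X : F) (Y : F)),
      P = Point.some (X : F) (Y : F) hXY := by
  rcases P with _ | ⟨X, Y, hXY⟩
  · exact Or.inl (Or.inl rfl)
  · by_cases hX : ‖X‖ ≤ 1
    · exact Or.inr ⟨⟨X, hX⟩, ⟨Y, Y_le hd hXY hX⟩, hXY, rfl⟩
    · exact Or.inl ((big_some hd hXY).2 (not_le.1 hX))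

theorem not_big (hd : ‖(d : F)‖ = 1) {X Y : OO h}
    (hXY : (W (d : F)).Nonsingular (X : F) (Y : F)) :
    ¬ Big 1 (Point.some (X : F) (Y : F) hXY : Pt (d : F)) := by
  rw [big_some hd]
  exact not_lt.2 (OO_le h X)

/-- the reduction of points -/
noncomputable def phi (hρ : ∀ x, ρ x = 0 ↔ ‖(x : F)‖ < 1) (hd : ‖(d : F)‖ = 1) :
    Pt (d : F) → (W (ρ d)).Point
  | .zero => .zero
  | .some X Y hXY =>
    if hX : ‖X‖ ≤ 1 then
      .some (ρ ⟨X, hX⟩) (ρ ⟨Y, Y_le hd hXY hX⟩)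
        (ns hρ hd (X := ⟨X, hX⟩) (Y := ⟨Y, Y_le hd hXY hX⟩) hXY)
    else .zero

theorem phi_some (hρ : ∀ x, ρ x = 0 ↔ ‖(x : F)‖ < 1) (hd : ‖(d : F)‖ = 1) {X Y : OO h}
    (hXY : (W (d : F)).Nonsingular (X : F) (Y : F)) :
    phi hρ hd (Point.some (X : F) (Y : F) hXY) = Point.some (ρ X) (ρ Y) (ns hρ hd hXY) := by
  have hX : ‖(X : F)‖ ≤ 1 := OO_le h X
  show (if hX : ‖(X : F)‖ ≤ 1 then _ else _) = _
  rw [dif_pos hX]

theorem phi_big (hρ : ∀ x, ρ x = 0 ↔ ‖(x : F)‖ < 1) (hd : ‖(d : F)‖ = 1) {P : Pt (d : F)}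
    (hP : Big 1 P) : phi hρ hd P = 0 := by
  rcases P with _ | ⟨X, Y, hXY⟩
  · rfl
  · rw [big_some hd] at hP
    show (if hX : ‖X‖ ≤ 1 then _ else _) = _
    rw [dif_neg (not_le.2 hP)]
    rfl

theorem some_congr {K : Type} [Field K] {V : WeierstrassCurve.Affine K} {x y x' y' : K}
    (h1 : V.Nonsingular x y) (h2 : V.Nonsingular x' y') (hx : x = x') (hy : y = y') :
    Point.some x y h1 = Point.some x' y' h2 := by
  subst hx hy
  rfl

theorem nsneg {K : Type} [Field K] {e x y : K} (h1 : (W e).Nonsingular x y) :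
    (W e).Nonsingular x (-y) := by
  have := (nonsingular_neg (W' := W e) x y).2 h1
  rwa [W_negY] at this

theorem neg_some' {K : Type} [Field K] {e x y : K} (h1 : (W e).Nonsingular x y) :
    -(Point.some x y h1) = Point.some x (-y) (nsneg h1) := by
  rw [Point.neg_some]
  exact some_congr _ _ rfl (W_negY e x y)

theorem big_neg {P : Pt (d : F)} (hP : Big 1 P) : Big 1 (-P) := by
  rcases P with _ | ⟨X, Y, hXY⟩
  · exact Or.inl rfl
  · rcases hP with hP | hP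
    · exact absurd hP (Point.some_ne_zero hXY)
    · refine Or.inr ?_
      rw [neg_some']
      exact hP

theorem phi_neg (hρ : ∀ x, ρ x = 0 ↔ ‖(x : F)‖ < 1) (hd : ‖(d : F)‖ = 1) (P : Pt (d : F)) :
    phi hρ hd (-P) = -phi hρ hd P := by
  rcases dich hd P with hP | ⟨X, Y, hXY, rfl⟩
  · rw [phi_big hρ hd hP, phi_big hρ hd (big_neg hP), neg_zero]
  · rw [phi_some hρ hd hXY, neg_some', neg_some']
    have hn : (W (d : F)).Nonsingular (X : F) ((-Y : OO h) : F) := by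
      rw [Subring.coe_neg]
      exact nsneg hXY
    have e : (Point.some (X : F) (-(Y : F)) (nsneg hXY) : Pt (d : F)) =
        Point.some (X : F) ((-Y : OO h) : F) hn := some_congr _ _ rfl (by rw [Subring.coe_neg])
    rw [e, phi_some hρ hd hn]
    exact some_congr _ _ rfl (map_neg ρ Y)

theorem cri' (cri : CriStmt) (hρ : ∀ x, ρ x = 0 ↔ ‖(x : F)‖ < 1) (hd : ‖(d : F)‖ = 1)
    {P Q : Pt (d : F)} (hP : ¬ Big 1 P) (hQ : ¬ Big 1 Q) :
    Big 1 (P - Q) ↔ phi hρ hd P = phi hρ hd Q := by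
  obtain ⟨X1, Y1, h1, rfl⟩ := (dich hd P).resolve_left hP
  obtain ⟨X2, Y2, h2, rfl⟩ := (dich hd Q).resolve_left hQ
  rw [cri F ϖ h d hd X1 Y1 X2 Y2 h1 h2 (OO_le h X1) (OO_le h X2), phi_some hρ hd h1,
    phi_some hρ hd h2, ← coe_sub', ← coe_sub', ← hρ, ← hρ, map_sub, map_sub,
    sub_eq_zero, sub_eq_zero, Point.some.injEq]

/-- big plus integral is integral -/
theorem big_add_not (hd : ‖(d : F)‖ = 1) {P Q : Pt (d : F)} (hP : Big 1 P) (hQ : ¬ Big 1 Q) :
    ¬ Big 1 (P + Q) := by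
  rcases P with _ | ⟨X1, Y1, h1⟩
  · exact hQ
  obtain ⟨X2, Y2, h2, rfl⟩ := (dich hd Q).resolve_left hQ
  rw [big_some hd] at hP
  have hX2 := OO_le h X2
  have hY2 := OO_le h Y2
  have hne : X1 ≠ (X2 : F) := by
    intro h0
    rw [h0] at hP
    exact absurd hP (not_lt.2 hX2)
  have hxy : ¬ (X1 = (X2 : F) ∧ Y1 = (W (d : F)).negY X2 Y2) := fun hh => hne hh.1
  have es : (Point.some X1 Y1 h1 : Pt (d : F)) + Point.some (X2 : F) (Y2 : F) h2 =
      Point.some _ _ (nonsingular_add h1 h2 hxy) := Point.add_some hxy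
  rw [es, big_some hd, W_addX, slope_of_X_ne hne, not_lt]
  have hE := ((W_nonsing_iff _ _ _).1 h1).1
  have hs : X1 - (X2 : F) ≠ 0 := sub_ne_zero.2 hne
  -- norms
  have nX : ‖X1 - (X2 : F)‖ = ‖X1‖ := by
    refine le_antisymm ?_ ?_
    · rw [sub_eq_add_neg]
      refine (h.ultra _ _).trans (max_le le_rfl ?_)
      rw [norm_neg]
      linarith
    · have e : X1 = (X1 - (X2 : F)) + X2 := by ring
      have h3 : ‖X1‖ ≤ max ‖X1 - (X2 : F)‖ ‖(X2 : F)‖ := by
        conv_lhs => rw [e]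
        exact h.ultra _ _
      rcases le_max_iff.1 h3 with h4 | h4
      · exact h4
      · linarith
  have na : ∀ c : F, ‖c‖ ≤ 1 → ‖X1 - (d : F) * c‖ ≤ ‖X1‖ := by
    intro c hc
    rw [sub_eq_add_neg]
    refine (h.ultra _ _).trans (max_le le_rfl ?_)
    rw [norm_neg, norm_mul, hd, one_mul]
    linarith
  have nY : ‖Y1‖ ^ 2 ≤ ‖X1‖ ^ 3 := by
    rw [← norm_pow, hE, norm_mul, norm_mul]
    have m1 := na _ h.norm_ea.le
    have m2 := na _ h.norm_eb.le
    calc ‖X1‖ * ‖X1 - (d : F) * ea F‖ * ‖X1 - (d : F) * eb F‖ ≤ ‖X1‖ * ‖X1‖ * ‖X1‖ := by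
          gcongr
      _ = ‖X1‖ ^ 3 := by ring
  have nY' : ‖Y1‖ ≤ ‖X1‖ ^ 2 := by
    have h5 : ‖Y1‖ ^ 2 ≤ (‖X1‖ ^ 2) ^ 2 := by
      refine nY.trans ?_
      have : ‖X1‖ ^ 3 * 1 ≤ ‖X1‖ ^ 3 * ‖X1‖ := by
        gcongr
      nlinarith
    exact le_of_sq_le_sq h5 (by positivity)
  have x2 : ‖X1‖ ≤ ‖X1‖ ^ 2 := by nlinarith
  have x0 : 1 ≤ ‖X1‖ ^ 2 := by nlinarith
  have e1 : ((Y1 - (Y2 : F)) / (X1 - X2)) ^ 2 + (d : F) * (ea F + eb F) - X1 - X2 =
      ((-((d : F) * (ea F + eb F)) * X1 ^ 2 + (d : F) ^ 2 * (ea F * eb F) * X1) +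
        (-(2 * Y1 * Y2) + ((Y2 : F) ^ 2 + (2 * X1 ^ 2 * X2 + -(X1 * (X2 : F) ^ 2))))) /
        (X1 - X2) ^ 2 + ((d : F) * (ea F + eb F) + -(X2 : F)) := by
    field_simp
    linear_combination hE
  rw [e1]
  have nd : ‖(d : F) * (ea F + eb F)‖ ≤ 1 := by
    rw [norm_mul, hd, one_mul]
    exact (h.ultra _ _).trans (max_le h.norm_ea.le h.norm_eb.le)
  refine (h.ultra _ _).trans (max_le ?_ ?_)
  · rw [norm_div, norm_pow, nX]
    refine div_le_one_of_le₀ ?_ (by positivity)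
    refine (h.ultra _ _).trans (max_le ((h.ultra _ _).trans (max_le ?_ ?_))
      ((h.ultra _ _).trans (max_le ?_ ((h.ultra _ _).trans (max_le ?_
        ((h.ultra _ _).trans (max_le ?_ ?_)))))))
    · rw [norm_mul, norm_neg, norm_pow]
      exact mul_le_of_le_one_left (by positivity) nd
    · rw [norm_mul, norm_mul, norm_pow, hd, norm_mul, h.norm_ea, h.norm_eb]
      linarith
    · rw [norm_neg, norm_mul, norm_mul, h.norm_two, one_mul]
      exact (mul_le_of_le_one_right (norm_nonneg _) hY2).trans nY'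
    · rw [norm_pow]
      exact (pow_le_one₀ (norm_nonneg _) hY2).trans x0
    · rw [norm_mul, norm_mul, norm_pow, h.norm_two, one_mul]
      exact mul_le_of_le_one_right (by positivity) hX2
    · rw [norm_neg, norm_mul, norm_pow]
      exact (mul_le_of_le_one_right (norm_nonneg _) (pow_le_one₀ (norm_nonneg _) hX2)).trans x2
  · refine (h.ultra _ _).trans (max_le nd ?_)
    rw [norm_neg]
    exact hX2

theorem add_of_slope (hρ : ∀ x, ρ x = 0 ↔ ‖(x : F)‖ < 1) (hd : ‖(d : F)‖ = 1)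
    {X1 Y1 X2 Y2 l : OO h} (h1 : (W (d : F)).Nonsingular (X1 : F) (Y1 : F))
    (h2 : (W (d : F)).Nonsingular (X2 : F) (Y2 : F))
    (hxy : ¬ ((X1 : F) = (X2 : F) ∧ (Y1 : F) = (W (d : F)).negY X2 Y2))
    (hxy' : ¬ (ρ X1 = ρ X2 ∧ ρ Y1 = (W (ρ d)).negY (ρ X2) (ρ Y2)))
    (hl : (W (d : F)).slope (X1 : F) X2 Y1 Y2 = (l : F))
    (hl' : (W (ρ d)).slope (ρ X1) (ρ X2) (ρ Y1) (ρ Y2) = ρ l) :
    phi hρ hd ((Point.some (X1 : F) (Y1 : F) h1 : Pt (d : F)) + Point.some (X2 : F) (Y2 : F) h2) =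
      phi hρ hd (Point.some (X1 : F) (Y1 : F) h1) + phi hρ hd (Point.some (X2 : F) (Y2 : F) h2) := by
  have es : (Point.some (X1 : F) (Y1 : F) h1 : Pt (d : F)) + Point.some (X2 : F) (Y2 : F) h2 =
      Point.some _ _ (nonsingular_add h1 h2 hxy) := Point.add_some hxy
  have es' : Point.some (ρ X1) (ρ Y1) (ns hρ hd h1) + Point.some (ρ X2) (ρ Y2) (ns hρ hd h2) =
      Point.some _ _ (nonsingular_add (ns hρ hd h1) (ns hρ hd h2) hxy') := Point.add_some hxy'
  rw [phi_some hρ hd h1, phi_some hρ hd h2, es']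
  have eX : (W (d : F)).addX (X1 : F) X2 ((W (d : F)).slope (X1 : F) X2 Y1 Y2) =
      ((l ^ 2 + d * (ea (OO h) + eb (OO h)) - X1 - X2 : OO h) : F) := by
    rw [hl, W_addX]
    push_cast
    rw [coe_ea, coe_eb]
  have eY : (W (d : F)).addY (X1 : F) X2 Y1 ((W (d : F)).slope (X1 : F) X2 Y1 Y2) =
      ((-(l * (l ^ 2 + d * (ea (OO h) + eb (OO h)) - X1 - X2 - X1) + Y1) : OO h) : F) := by
    rw [hl, W_addY]
    push_cast
    rw [coe_ea, coe_eb]
  have hn := nonsingular_add h1 h2 hxy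
  rw [eX, eY] at hn
  have es2 : (Point.some (X1 : F) (Y1 : F) h1 : Pt (d : F)) + Point.some (X2 : F) (Y2 : F) h2 =
      Point.some _ _ hn := es.trans (some_congr _ _ eX eY)
  rw [es2, phi_some hρ hd hn]
  refine some_congr _ _ ?_ ?_
  · rw [hl', W_addX]
    simp only [map_sub, map_add, map_mul, map_pow, map_ea, map_eb]
  · rw [hl', W_addY]
    simp only [map_sub, map_add, map_mul, map_pow, map_ea, map_eb, map_neg]

theorem phi_add (cri : CriStmt) (hρ : ∀ x, ρ x = 0 ↔ ‖(x : F)‖ < 1) (hd : ‖(d : F)‖ = 1)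
    (P Q : Pt (d : F)) : phi hρ hd (P + Q) = phi hρ hd P + phi hρ hd Q := by
  -- one point big
  have K : ∀ P Q : Pt (d : F), Big 1 P → ¬ Big 1 Q →
      phi hρ hd (P + Q) = phi hρ hd P + phi hρ hd Q := by
    intro P Q hP hQ
    rw [phi_big hρ hd hP, zero_add]
    refine (cri' cri hρ hd (big_add_not hd hP hQ) hQ).1 ?_
    rwa [add_sub_cancel_right]
  by_cases hP : Big 1 P
  · by_cases hQ : Big 1 Q
    · have hPQ : Big 1 (P + Q) := by
        by_contra hcon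
        have := big_add_not hd (big_neg hP) hcon
        rw [neg_add_cancel_left] at this
        exact this hQ
      rw [phi_big hρ hd hP, phi_big hρ hd hQ, phi_big hρ hd hPQ, zero_add]
    · exact K P Q hP hQ
  by_cases hQ : Big 1 Q
  · rw [add_comm P Q, add_comm (phi hρ hd P)]
    exact K Q P hQ hP
  -- both integral
  have hnQ : ¬ Big 1 (-Q) := by
    intro h0
    apply hQ
    have := big_neg h0
    rwa [neg_neg] at this
  have hiff := cri' cri hρ hd hP hnQ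
  rw [sub_neg_eq_add, phi_neg] at hiff
  by_cases hPQ : Big 1 (P + Q)
  · rw [phi_big hρ hd hPQ, hiff.1 hPQ, neg_add_cancel]
  have hne : phi hρ hd P ≠ -phi hρ hd Q := fun h0 => hPQ (hiff.2 h0)
  obtain ⟨X1, Y1, h1, rfl⟩ := (dich hd P).resolve_left hP
  obtain ⟨X2, Y2, h2, rfl⟩ := (dich hd Q).resolve_left hQ
  have hxy' : ¬ (ρ X1 = ρ X2 ∧ ρ Y1 = -ρ Y2) := by
    rintro ⟨a1, a2⟩
    apply hne
    rw [phi_some hρ hd h1, phi_some hρ hd h2, neg_some']
    exact some_congr _ _ a1 a2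
  have hxy : ¬ ((X1 : F) = (X2 : F) ∧ (Y1 : F) = -(Y2 : F)) := by
    rintro ⟨a1, a2⟩
    apply hxy'
    refine ⟨congrArg ρ (Subtype.ext a1), ?_⟩
    rw [← map_neg]
    refine congrArg ρ (Subtype.ext ?_)
    rw [a2, Subring.coe_neg]
  by_cases hx : ρ X1 = ρ X2
  · -- the slope is N / (Y1 + Y2)
    have hy' : ρ Y1 ≠ -ρ Y2 := fun h0 => hxy' ⟨hx, h0⟩
    have E1 := eq_O h1
    have E2 := eq_O h2
    have hy : ρ Y1 = ρ Y2 := by
      have e1 := congrArg ρ E1
      have e2 := congrArg ρ E2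
      simp only [map_pow, map_mul, map_sub] at e1 e2
      rw [hx, ← e2] at e1
      rcases sq_eq_sq_iff_eq_or_eq_neg.1 e1 with h0 | h0
      · exact h0
      · exact absurd h0 hy'
    have hs : ρ (Y1 + Y2) ≠ 0 := by
      rw [map_add]
      intro h0
      exact hy' (eq_neg_of_add_eq_zero_left h0)
    have hs1 : ‖((Y1 + Y2 : OO h) : F)‖ = 1 := by
      refine le_antisymm (OO_le h _) ?_
      by_contra h0
      exact hs ((hρ _).2 (not_le.1 h0))
    have hs0 : ((Y1 + Y2 : OO h) : F) ≠ 0 := by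
      intro h0
      rw [h0, norm_zero] at hs1
      exact zero_ne_one hs1
    set N : OO h := X1 ^ 2 + X1 * X2 + X2 ^ 2 - d * (ea (OO h) + eb (OO h)) * (X1 + X2) +
      d ^ 2 * (ea (OO h) * eb (OO h)) with hN
    have hlm : ‖(N : F) / ((Y1 + Y2 : OO h) : F)‖ ≤ 1 := by
      rw [norm_div, hs1, div_one]
      exact OO_le h N
    set l : OO h := ⟨(N : F) / ((Y1 + Y2 : OO h) : F), hlm⟩ with hldef
    have hlN : l * (Y1 + Y2) = N := by
      apply Subtype.ext
      rw [Subring.coe_mul]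
      exact div_mul_cancel₀ _ hs0
    have hlN' : ρ l * (ρ Y1 + ρ Y2) = ρ N := by
      rw [← hlN, map_mul, map_add]
    refine add_of_slope hρ hd (l := l) h1 h2 (by rw [W_negY]; exact hxy) (by rw [W_negY]; exact hxy')
      ?_ ?_
    · -- slope upstairs
      show _ = (N : F) / ((Y1 + Y2 : OO h) : F)
      have cN : (N : F) = (X1 : F) ^ 2 + X1 * X2 + (X2 : F) ^ 2 -
          (d : F) * (ea F + eb F) * (X1 + X2) + (d : F) ^ 2 * (ea F * eb F) := by
        rw [hN]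
        push_cast
        rw [coe_ea, coe_eb]
      have F1 := ((W_nonsing_iff _ _ _).1 h1).1
      have F2 := ((W_nonsing_iff _ _ _).1 h2).1
      have hs0' : (Y1 : F) + Y2 ≠ 0 := by
        rw [← Subring.coe_add]
        exact hs0
      by_cases hX : (X1 : F) = X2
      · have hYn : (Y1 : F) ≠ -(Y2 : F) := fun h0 => hxy ⟨hX, h0⟩
        have hY : (Y1 : F) = Y2 := by
          have h6 : (Y1 : F) ^ 2 = (Y2 : F) ^ 2 := by rw [F1, F2, hX]
          rcases sq_eq_sq_iff_eq_or_eq_neg.1 h6 with h0 | h0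
          · exact h0
          · exact absurd h0 hYn
        rw [slope_of_Y_ne hX (by rw [W_negY]; exact hYn), W_negY, cN]
        simp only [W]
        rw [Subring.coe_add, ← hX, ← hY]
        have h7 : (Y1 : F) - -(Y1 : F) = Y1 + Y1 := by ring
        rw [h7]
        congr 1
        ring
      · rw [slope_of_X_ne hX, cN, Subring.coe_add]
        have hX' : (X1 : F) - X2 ≠ 0 := sub_ne_zero.2 hX
        rw [div_eq_div_iff hX' hs0']
        linear_combination F1 - F2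
    · -- slope downstairs
      rw [slope_of_Y_ne hx (by rw [W_negY]; exact hy'), W_negY]
      have hden : ρ Y1 - -ρ Y1 = ρ Y1 + ρ Y2 := by rw [← hy]; ring
      have hden0 : ρ Y1 + ρ Y2 ≠ 0 := by
        rw [← map_add]
        exact hs
      rw [hden, div_eq_iff hden0, hlN', hN]
      simp only [map_sub, map_add, map_mul, map_pow, map_ea, map_eb, W]
      rw [← hx]
      ring
  · -- the slope is (Y1 - Y2) / (X1 - X2)
    have hsρ : ρ (X1 - X2) ≠ 0 := by
      rw [map_sub]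
      exact sub_ne_zero.2 hx
    have hs1 : ‖((X1 - X2 : OO h) : F)‖ = 1 := by
      refine le_antisymm (OO_le h _) ?_
      by_contra h0
      exact hsρ ((hρ _).2 (not_le.1 h0))
    have hs0 : ((X1 - X2 : OO h) : F) ≠ 0 := by
      intro h0
      rw [h0, norm_zero] at hs1
      exact zero_ne_one hs1
    have hlm : ‖((Y1 - Y2 : OO h) : F) / ((X1 - X2 : OO h) : F)‖ ≤ 1 := by
      rw [norm_div, hs1, div_one]
      exact OO_le h _
    set l : OO h := ⟨((Y1 - Y2 : OO h) : F) / ((X1 - X2 : OO h) : F), hlm⟩ with hldef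
    have hl1 : l * (X1 - X2) = Y1 - Y2 := by
      apply Subtype.ext
      rw [Subring.coe_mul]
      exact div_mul_cancel₀ _ hs0
    have hX : (X1 : F) ≠ X2 := fun h0 => hx (congrArg ρ (Subtype.ext h0))
    refine add_of_slope hρ hd (l := l) h1 h2 (by rw [W_negY]; exact hxy) (by rw [W_negY]; exact hxy')
      ?_ ?_
    · rw [slope_of_X_ne hX]
      show _ = ((Y1 - Y2 : OO h) : F) / ((X1 - X2 : OO h) : F)
      rw [coe_sub', coe_sub']
    · rw [slope_of_X_ne hx, div_eq_iff (sub_ne_zero.2 hx), ← map_sub, ← map_sub, ← map_mul, hl1]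

theorem phi_zero (cri : CriStmt) (hρ : ∀ x, ρ x = 0 ↔ ‖(x : F)‖ < 1) (hd : ‖(d : F)‖ = 1)
    (P : Pt (d : F)) : phi hρ hd P = 0 ↔ Big 1 P := by
  constructor
  · intro h0
    by_contra hP
    obtain ⟨X1, Y1, h1, rfl⟩ := (dich hd P).resolve_left hP
    rw [phi_some hρ hd h1] at h0
    exact Point.some_ne_zero _ h0
  · exact phi_big hρ hd

end main

/-- row RED -/
theorem red (cri : Pool.Agent.WAQ.CriStmt) : Pool.Agent.WAQ.RedStmt := by
  intro F _ ϖ h d hd
  have hp : Fact ϖ.natAbs.Prime := ⟨Int.prime_iff_natAbs_prime.1 h.prime⟩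
  have hdO : ‖((⟨d, hd.le⟩ : OO h) : F)‖ = 1 := hd
  refine ⟨hp, rho h ⟨d, hd.le⟩, phi (d := ⟨d, hd.le⟩) (rho_eq_zero h) hdO, ?_, ?_, ?_⟩
  · exact rho_ne (rho_eq_zero h) hdO
  · exact phi_add cri (rho_eq_zero h) hdO
  · exact phi_zero cri (rho_eq_zero h) hdO

end Pool.Agent.WAQ.H98
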